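import Pool.Agent.EGF.Stmts

/-!
# Row ITE of table egf: all rounds
-/

set_option autoImplicit false

open Finset

namespace Pool.Agent.EGF.H67

theorem tau_le (s n : ℕ) (hs : 1 ≤ s) :
    0 ≤ (1 / (s : ℝ) ^ 2) ^ 257 / (2 * (n : ℝ) ^ 2) ∧
      (1 / (s : ℝ) ^ 2) ^ 257 / (2 * (n : ℝ) ^ 2) ≤ 1 := by
  have hs' : (1 : ℝ) ≤ s := by exact_mod_cast hs
  have h1 : (1 / (s : ℝ) ^ 2) ^ 257 ≤ 1 := by
    refine pow_le_one₀ (by positivity) ?_
    rw [div_le_one (by positivity)]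
    exact one_le_pow₀ hs'
  refine ⟨by positivity, ?_⟩
  rcases Nat.eq_zero_or_pos n with h | h
  · subst h
    simp
  · have h2 : (1 : ℝ) ≤ n := by exact_mod_cast h
    have h3 : (1 : ℝ) ≤ 2 * (n : ℝ) ^ 2 := by
      have := one_le_pow₀ h2 (n := 2)
      linarith
    rw [div_le_one (by positivity)]
    exact h1.trans h3

theorem ite (hRnd : RndStmt) (hCnt : CntStmt) : IteStmt := by
  intro V _ k c C U A B s m L θ lam ρ σ R hsym hRec hθ hU8 hL hLs hFlat hA hB hAB hRA hRB hReg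
    hlam hlam1 hlam2 hlam3 hρ hσ hρσ hR hm hσm hσ1 hbig h32
  have hs1 : 1 ≤ s := by
    have h1 : (1 : ℝ) ≤ s := by linarith
    exact_mod_cast h1
  obtain ⟨τ, hτ⟩ : ∃ τ : ℝ, τ = (1 / (s : ℝ) ^ 2) ^ 257 / (2 * (C.card : ℝ) ^ 2) := ⟨_, rfl⟩
  have hτ0 : 0 ≤ τ := by
    rw [hτ]
    exact (tau_le s C.card hs1).1
  have hτ1 : τ ≤ 1 := by
    rw [hτ]
    exact (tau_le s C.card hs1).2
  rw [← hτ] at hσm
  have key : ∀ A1 B1 : Finset V, A1 ⊆ A → B1 ⊆ B → σ * A.card ≤ (A1.card : ℝ) →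
      σ * B.card ≤ (B1.card : ℝ) →
      ∃ (A2 B2 : Finset V) (x x' y y' : V) (a b : Fin k) (f : Fin 8 → Fin k),
        Rnd c C A1 B1 A2 B2 x x' y y' a b f ∧
        τ * A1.card ≤ (A2.card : ℝ) ∧ τ * B1.card ≤ (B2.card : ℝ) := by
    intro A1 B1 h1 h2 h3 h4
    rw [hτ]
    exact hRnd V k c C U A B A1 B1 s L θ lam ρ σ R hsym hRec hθ hU8 hL hLs hFlat hA hB hRA hRB
      hReg hlam hlam1 hlam2 hlam3 hρ hσ hσ1 hρσ hR hbig h1 h2 h3 h4
  have hσA : σ * A.card ≤ (A.card : ℝ) := mul_le_of_le_one_left (Nat.cast_nonneg _) hσ1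
  have hσB : σ * B.card ≤ (B.card : ℝ) := mul_le_of_le_one_left (Nat.cast_nonneg _) hσ1
  obtain ⟨A2, B2, x0, x0', y0, y0', a0, b0, f0, -⟩ := key A B (Subset.refl _) (Subset.refl _)
    hσA hσB
  have hstep : ∀ A1 B1 : Finset V,
      ∃ (A2 B2 : Finset V) (x x' y y' : V) (a b : Fin k) (f : Fin 8 → Fin k),
        A1 ⊆ A → B1 ⊆ B → σ * A.card ≤ (A1.card : ℝ) → σ * B.card ≤ (B1.card : ℝ) →
        Rnd c C A1 B1 A2 B2 x x' y y' a b f ∧
        τ * A1.card ≤ (A2.card : ℝ) ∧ τ * B1.card ≤ (B2.card : ℝ) := by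
    intro A1 B1
    by_cases h : A1 ⊆ A ∧ B1 ⊆ B ∧ σ * A.card ≤ (A1.card : ℝ) ∧ σ * B.card ≤ (B1.card : ℝ)
    · obtain ⟨h1, h2, h3, h4⟩ := h
      obtain ⟨A2, B2, x, x', y, y', a, b, f, hh⟩ := key A1 B1 h1 h2 h3 h4
      exact ⟨A2, B2, x, x', y, y', a, b, f, fun _ _ _ _ => hh⟩
    · exact ⟨A2, B2, x0, x0', y0, y0', a0, b0, f0, fun h1 h2 h3 h4 =>
        absurd ⟨h1, h2, h3, h4⟩ h⟩
  choose nA nB nx nx' ny ny' na nb nf hn using hstep
  obtain ⟨q, hq0, hqs⟩ : ∃ q : ℕ → Finset V × Finset V, q 0 = (A, B) ∧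
      ∀ i, q (i + 1) = (nA (q i).1 (q i).2, nB (q i).1 (q i).2) :=
    ⟨fun i => Nat.rec (A, B) (fun _ p => (nA p.1 p.2, nB p.1 p.2)) i, rfl, fun _ => rfl⟩
  have hpow : ∀ i ≤ m, σ ≤ τ ^ i := fun i hi => hσm.trans (pow_le_pow_of_le_one hτ0 hτ1 hi)
  have hinv : ∀ i ≤ m, (q i).1 ⊆ A ∧ (q i).2 ⊆ B ∧ τ ^ i * A.card ≤ ((q i).1.card : ℝ) ∧
      τ ^ i * B.card ≤ ((q i).2.card : ℝ) := by
    intro i
    induction i with
    | zero =>
      intro _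
      rw [hq0]
      refine ⟨Subset.refl _, Subset.refl _, ?_, ?_⟩
      · rw [pow_zero, one_mul]
      · rw [pow_zero, one_mul]
    | succ i ih =>
      intro hi
      obtain ⟨h1, h2, h3, h4⟩ := ih (by omega)
      have h5 : σ * A.card ≤ ((q i).1.card : ℝ) :=
        (mul_le_mul_of_nonneg_right (hpow i (by omega)) (Nat.cast_nonneg _)).trans h3
      have h6 : σ * B.card ≤ ((q i).2.card : ℝ) :=
        (mul_le_mul_of_nonneg_right (hpow i (by omega)) (Nat.cast_nonneg _)).trans h4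
      obtain ⟨r, s1, s2⟩ := hn (q i).1 (q i).2 h1 h2 h5 h6
      rw [hqs i]
      refine ⟨r.sA.trans h1, r.sB.trans h2, ?_, ?_⟩
      · rw [pow_succ', mul_assoc]
        exact (mul_le_mul_of_nonneg_left h3 hτ0).trans s1
      · rw [pow_succ', mul_assoc]
        exact (mul_le_mul_of_nonneg_left h4 hτ0).trans s2
  have hR' : ∀ i < m, Rnd c C (q i).1 (q i).2 (q (i + 1)).1 (q (i + 1)).2
      (nx (q i).1 (q i).2) (nx' (q i).1 (q i).2) (ny (q i).1 (q i).2) (ny' (q i).1 (q i).2)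
      (na (q i).1 (q i).2) (nb (q i).1 (q i).2) (nf (q i).1 (q i).2) := by
    intro i hi
    obtain ⟨h1, h2, h3, h4⟩ := hinv i hi.le
    have h5 : σ * A.card ≤ ((q i).1.card : ℝ) :=
      (mul_le_mul_of_nonneg_right (hpow i hi.le) (Nat.cast_nonneg _)).trans h3
    have h6 : σ * B.card ≤ ((q i).2.card : ℝ) :=
      (mul_le_mul_of_nonneg_right (hpow i hi.le) (Nat.cast_nonneg _)).trans h4
    rw [hqs i]
    exact (hn (q i).1 (q i).2 h1 h2 h5 h6).1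
  have hdis : Disjoint (q 0).1 (q 0).2 := by
    rw [hq0]
    exact hAB
  obtain ⟨Q, hQ, hQ32, hQpal⟩ := hCnt V k c C m (fun i => (q i).1) (fun i => (q i).2)
    (fun i => nx (q i).1 (q i).2) (fun i => nx' (q i).1 (q i).2) (fun i => ny (q i).1 (q i).2)
    (fun i => ny' (q i).1 (q i).2) (fun i => na (q i).1 (q i).2) (fun i => nb (q i).1 (q i).2)
    (fun i => nf (q i).1 (q i).2) hsym hdis hR' hm
  have hQU : Q ⊆ U := by
    refine hQ.trans ?_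
    rw [hq0]
    exact union_subset hA hB
  have := h32 Q hQU hQ32
  omega

end Pool.Agent.EGF.H67
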