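import Pool.Agent.EGF.StmtsP

/-!
# Row ITE2 of table egf: all rounds, with regularity inside each round
-/

set_option autoImplicit false

open Finset

namespace Pool.Agent.EGF.H67

/-- the invariant after `i` rounds -/
structure Inv {V : Type} [DecidableEq V] {k : ℕ} (c : V → V → Fin k) (C : Finset (Fin k))
    (U : Finset V) (m : ℕ) (κ ρ R : ℝ) (i : ℕ) (A B : Finset V) : Prop where
  sA : A ⊆ U
  sB : B ⊆ U
  nA : A.Nonempty
  nB : B.Nonempty
  ex : ((ex c C A B).card : ℝ) ≤ κ * (1 + i / m) * (A.card * B.card)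
  lA : Real.log U.card - R - i * (7 * m / ρ ^ 2) ≤ Real.log A.card
  lB : Real.log U.card - R - i * (7 * m / ρ ^ 2) ≤ Real.log B.card

theorem log_step {m : ℕ} {ρ a b : ℝ} (hm : 1 ≤ m) (hρ : 0 < ρ) (hρ1 : ρ ≤ 1) (ha : 0 < a)
    (hb : ρ * a ≤ b) : Real.log a - m / ρ ^ 2 ≤ Real.log b := by
  have h1 : Real.log (ρ * a) ≤ Real.log b := Real.log_le_log (by positivity) hb
  rw [Real.log_mul hρ.ne' ha.ne'] at h1
  have h2 : -Real.log ρ ≤ 1 / ρ := by
    rw [← Real.log_inv]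
    have h3 := Real.log_le_sub_one_of_pos (inv_pos.2 hρ)
    rw [one_div]
    linarith
  have h3 : 1 / ρ ≤ m / ρ ^ 2 := by
    have hm' : (1 : ℝ) ≤ m := by exact_mod_cast hm
    rw [div_le_div_iff₀ hρ (by positivity)]
    nlinarith
  linarith

theorem ite2 (hRnd : RndStmt) (hCnt : CntStmt) (hReg2 : Reg2Stmt) : Ite2Stmt := by
  intro V _ k c C U A B s m j L θ κ ρ R hsym hRec hθ hU8 hL hLs hFlat hA hB hAB hnA hnB hRA hRB
    hex hκ hκ1 hκ2 hκ3 hρ hρκ hCn hCj hρj hR hm hbig h32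
  have hm0 : 0 < m := by omega
  have hmR : (0 : ℝ) < m := by exact_mod_cast hm0
  have hρ1 : ρ ≤ 1 := by linarith
  have hρ2 : 0 < ρ ^ 2 := by positivity
  have hCc : 1 ≤ C.card := hCn.card_pos
  -- the relative size
  have hrel : ρ ≤ (1 / (s : ℝ) ^ 2) ^ 257 / (2 * (C.card : ℝ) ^ 2) := by
    refine hρj.trans ?_
    have h1 : (0 : ℝ) < C.card := by exact_mod_cast hCc
    have h2 : (C.card : ℝ) ≤ j := by exact_mod_cast hCj
    have h3 : (0 : ℝ) ≤ (1 / (s : ℝ) ^ 2) ^ 257 := pow_nonneg (by positivity) _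
    have h4 : (0 : ℝ) < 2 * (C.card : ℝ) ^ 2 := by positivity
    have h5 : 2 * (C.card : ℝ) ^ 2 ≤ 2 * (j : ℝ) ^ 2 :=
      mul_le_mul_of_nonneg_left (pow_le_pow_left₀ h1.le h2 2) (by norm_num)
    exact div_le_div_of_nonneg_left h3 h4 h5
  -- one step
  have key : ∀ (i : ℕ) (A' B' : Finset V), i < m → Inv c C U m κ ρ R i A' B' →
      ∃ (A2 B2 : Finset V) (x x' y y' : V) (a b : Fin k) (f : Fin 8 → Fin k),
        Rnd c C A' B' A2 B2 x x' y y' a b f ∧ Inv c C U m κ ρ R (i + 1) A2 B2 := by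
    intro i A' B' hi hI
    have hiR : (i : ℝ) + 1 ≤ m := by exact_mod_cast hi
    have hi0 : (0 : ℝ) ≤ i := Nat.cast_nonneg i
    have hκ' : 0 < κ / m := by positivity
    have hκi : 0 ≤ κ * (1 + i / m) := by positivity
    obtain ⟨A1, hA1, B1, hB1, nA1, nB1, lA1, lB1, hReg⟩ := hReg2 V k c C A' B'
      (κ * (1 + i / m)) (κ / m) ρ hI.nA hI.nB hκi hκ' hρ hI.ex
    have hloss : 3 * (κ * (1 + i / m)) / (κ / m * ρ ^ 2) ≤ 6 * m / ρ ^ 2 := by
      have h1 : 3 * (κ * (1 + i / m)) / (κ / m * ρ ^ 2) = 3 * (m + i) / ρ ^ 2 := by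
        field_simp
      rw [h1]
      refine div_le_div_of_nonneg_right ?_ hρ2.le
      linarith
    have hsum : κ * (1 + i / m) + κ / m = κ * (1 + ((i + 1 : ℕ) : ℝ) / m) := by
      push_cast
      field_simp
      ring
    rw [hsum] at hReg
    have h2κ : κ * (1 + ((i + 1 : ℕ) : ℝ) / m) ≤ 2 * κ := by
      have h1 : ((i + 1 : ℕ) : ℝ) / m ≤ 1 := by
        rw [div_le_one hmR]
        exact_mod_cast hi
      nlinarith
    have hRegL : Reg c C A1 B1 (2 * κ) ρ := by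
      intro A'' hA'' B'' hB'' h1 h2
      exact (hReg A'' hA'' B'' hB'' h1 h2).trans
        (mul_le_mul_of_nonneg_right h2κ (by positivity))
    have hG : (i : ℝ) * (7 * m / ρ ^ 2) + 6 * m / ρ ^ 2 ≤ 7 * (m : ℝ) ^ 2 / ρ ^ 2 := by
      have h1 : (i : ℝ) * (7 * m / ρ ^ 2) + 6 * m / ρ ^ 2 = (i * (7 * m) + 6 * m) / ρ ^ 2 := by
        ring
      rw [h1]
      refine div_le_div_of_nonneg_right ?_ hρ2.le
      nlinarith
    have hR' : 0 ≤ R + (i : ℝ) * (7 * m / ρ ^ 2) + 6 * m / ρ ^ 2 := by positivity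
    obtain ⟨A2, B2, x, x', y, y', a, b, f, hr, hsA, hsB⟩ := hRnd V k c C U A1 B1 A1 B1 s L θ
      (2 * κ) ρ 1 (R + (i : ℝ) * (7 * m / ρ ^ 2) + 6 * m / ρ ^ 2) hsym hRec hθ hU8 hL hLs hFlat
      (hA1.trans hI.sA) (hB1.trans hI.sB) (by linarith [hI.lA]) (by linarith [hI.lB]) hRegL
      (by linarith) (by linarith) (by linarith) hκ3 hρ one_pos le_rfl (by linarith) hR'
      (by
        rw [div_one, Real.log_one]
        linarith)
      (Subset.refl _) (Subset.refl _) (by rw [one_mul]) (by rw [one_mul])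
    have hsA' : ρ * A1.card ≤ (A2.card : ℝ) :=
      (mul_le_mul_of_nonneg_right hrel (Nat.cast_nonneg _)).trans hsA
    have hsB' : ρ * B1.card ≤ (B2.card : ℝ) :=
      (mul_le_mul_of_nonneg_right hrel (Nat.cast_nonneg _)).trans hsB
    have hA1p : (0 : ℝ) < A1.card := by exact_mod_cast nA1.card_pos
    have hB1p : (0 : ℝ) < B1.card := by exact_mod_cast nB1.card_pos
    have hA2p : (0 : ℝ) < A2.card := (mul_pos hρ hA1p).trans_le hsA'
    have hB2p : (0 : ℝ) < B2.card := (mul_pos hρ hB1p).trans_le hsB'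
    have hlog := log_step (m := m) hm0 hρ hρ1 hA1p hsA'
    have hlog' := log_step (m := m) hm0 hρ hρ1 hB1p hsB'
    have hGi : (((i + 1 : ℕ) : ℝ)) * (7 * m / ρ ^ 2) =
        (i : ℝ) * (7 * m / ρ ^ 2) + 6 * m / ρ ^ 2 + m / ρ ^ 2 := by
      push_cast
      ring
    refine ⟨A2, B2, x, x', y, y', a, b, f, ?_, ?_⟩
    · exact ⟨hA1 hr.hx, hA1 hr.hx', hB1 hr.hy, hB1 hr.hy', hr.nx, hr.ny, hr.eq, hr.f0, hr.f1,
        hr.f2, hr.f3, hr.fC, hr.sA.trans hA1, hr.sB.trans hB1, hr.cA, hr.cB⟩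
    · refine ⟨(hr.sA.trans hA1).trans hI.sA, (hr.sB.trans hB1).trans hI.sB,
        card_pos.1 (by exact_mod_cast hA2p), card_pos.1 (by exact_mod_cast hB2p),
        hReg A2 hr.sA B2 hr.sB hsA' hsB', ?_, ?_⟩
      · rw [hGi]
        linarith [hI.lA]
      · rw [hGi]
        linarith [hI.lB]
  have hI0 : Inv c C U m κ ρ R 0 A B := by
    refine ⟨hA, hB, hnA, hnB, ?_, ?_, ?_⟩
    · rw [Nat.cast_zero, zero_div, add_zero, mul_one]
      exact hex
    · rw [Nat.cast_zero, zero_mul, sub_zero]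
      exact hRA
    · rw [Nat.cast_zero, zero_mul, sub_zero]
      exact hRB
  obtain ⟨A2, B2, x0, x0', y0, y0', a0, b0, f0, -⟩ := key 0 A B hm0 hI0
  have hstep : ∀ (i : ℕ) (A' B' : Finset V),
      ∃ (A2 B2 : Finset V) (x x' y y' : V) (a b : Fin k) (f : Fin 8 → Fin k),
        i < m → Inv c C U m κ ρ R i A' B' →
        Rnd c C A' B' A2 B2 x x' y y' a b f ∧ Inv c C U m κ ρ R (i + 1) A2 B2 := by
    intro i A' B'
    by_cases h : i < m ∧ Inv c C U m κ ρ R i A' B'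
    · obtain ⟨A2, B2, x, x', y, y', a, b, f, hh⟩ := key i A' B' h.1 h.2
      exact ⟨A2, B2, x, x', y, y', a, b, f, fun _ _ => hh⟩
    · exact ⟨A2, B2, x0, x0', y0, y0', a0, b0, f0, fun h1 h2 => absurd ⟨h1, h2⟩ h⟩
  choose nA nB nx nx' ny ny' na nb nf hn using hstep
  obtain ⟨q, hq0, hqs⟩ : ∃ q : ℕ → Finset V × Finset V, q 0 = (A, B) ∧
      ∀ i, q (i + 1) = (nA i (q i).1 (q i).2, nB i (q i).1 (q i).2) :=
    ⟨fun i => Nat.rec (A, B) (fun i p => (nA i p.1 p.2, nB i p.1 p.2)) i, rfl, fun _ => rfl⟩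
  have hinv : ∀ i ≤ m, Inv c C U m κ ρ R i (q i).1 (q i).2 := by
    intro i
    induction i with
    | zero =>
      intro _
      rw [hq0]
      exact hI0
    | succ i ih =>
      intro hi
      rw [hqs i]
      exact (hn i (q i).1 (q i).2 (by omega) (ih (by omega))).2
  have hR' : ∀ i < m, Rnd c C (q i).1 (q i).2 (q (i + 1)).1 (q (i + 1)).2
      (nx i (q i).1 (q i).2) (nx' i (q i).1 (q i).2) (ny i (q i).1 (q i).2)
      (ny' i (q i).1 (q i).2) (na i (q i).1 (q i).2) (nb i (q i).1 (q i).2)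
      (nf i (q i).1 (q i).2) := by
    intro i hi
    rw [hqs i]
    exact (hn i (q i).1 (q i).2 hi (hinv i hi.le)).1
  have hdis : Disjoint (q 0).1 (q 0).2 := by
    rw [hq0]
    exact hAB
  have hm' : 7 * C.card ^ 8 < m :=
    (Nat.mul_le_mul_left 7 (Nat.pow_le_pow_left hCj 8)).trans_lt hm
  obtain ⟨Q, hQ, hQ32, hQpal⟩ := hCnt V k c C m (fun i => (q i).1) (fun i => (q i).2)
    (fun i => nx i (q i).1 (q i).2) (fun i => nx' i (q i).1 (q i).2)
    (fun i => ny i (q i).1 (q i).2) (fun i => ny' i (q i).1 (q i).2)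
    (fun i => na i (q i).1 (q i).2) (fun i => nb i (q i).1 (q i).2)
    (fun i => nf i (q i).1 (q i).2) hsym hdis hR' hm'
  have hQU : Q ⊆ U := by
    refine hQ.trans ?_
    rw [hq0]
    exact union_subset hA hB
  have := h32 Q hQU hQ32
  omega

end Pool.Agent.EGF.H67
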