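import Pool.Agent.EGF.StmtsS

/-!
# Squad EGF, row LRE (helper67): lower regularity (after `Helper16_EGF/HRG.lean`)
-/

set_option autoImplicit false

open Finset

namespace Pool.Agent.EGF.H67

open Pool.Agent.EGF

variable {X Y : Type} [DecidableEq X] [DecidableEq Y]

/-- number of pairs of `G` in a rectangle -/
noncomputable def cn (G : Finset (X × Y)) (A : Finset X) (B : Finset Y) : ℝ :=
  (((A ×ˢ B) ∩ G).card : ℝ)

theorem cn_left (G : Finset (X × Y)) {A A' : Finset X} (h : A' ⊆ A) (B : Finset Y) :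
    cn G A B = cn G A' B + cn G (A \ A') B := by
  unfold cn
  rw [← Nat.cast_add, ← card_union_of_disjoint]
  · congr 2
    ext p
    simp only [mem_inter, mem_product, mem_union, mem_sdiff]
    constructor
    · rintro ⟨⟨h1, h2⟩, h3⟩
      by_cases h4 : p.1 ∈ A'
      · exact Or.inl ⟨⟨h4, h2⟩, h3⟩
      · exact Or.inr ⟨⟨⟨h1, h4⟩, h2⟩, h3⟩
    · rintro (⟨⟨h1, h2⟩, h3⟩ | ⟨⟨⟨h1, h4⟩, h2⟩, h3⟩)
      · exact ⟨⟨h h1, h2⟩, h3⟩
      · exact ⟨⟨h1, h2⟩, h3⟩
  · rw [Finset.disjoint_left]
    intro p hp hq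
    simp only [mem_inter, mem_product, mem_sdiff] at hp hq
    exact hq.1.1.2 hp.1.1

theorem cn_right (G : Finset (X × Y)) (A : Finset X) {B B' : Finset Y} (h : B' ⊆ B) :
    cn G A B = cn G A B' + cn G A (B \ B') := by
  unfold cn
  rw [← Nat.cast_add, ← card_union_of_disjoint]
  · congr 2
    ext p
    simp only [mem_inter, mem_product, mem_union, mem_sdiff]
    constructor
    · rintro ⟨⟨h1, h2⟩, h3⟩
      by_cases h4 : p.2 ∈ B'
      · exact Or.inl ⟨⟨h1, h4⟩, h3⟩
      · exact Or.inr ⟨⟨h1, h2, h4⟩, h3⟩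
    · rintro (⟨⟨h1, h2⟩, h3⟩ | ⟨⟨h1, h2, h4⟩, h3⟩)
      · exact ⟨⟨h1, h h2⟩, h3⟩
      · exact ⟨⟨h1, h2⟩, h3⟩
  · rw [Finset.disjoint_left]
    intro p hp hq
    simp only [mem_inter, mem_product, mem_sdiff] at hp hq
    exact hq.1.2.2 hp.1.2

theorem cn_le (G : Finset (X × Y)) (A : Finset X) (B : Finset Y) :
    cn G A B ≤ A.card * B.card := by
  unfold cn
  rw [← Nat.cast_mul, ← card_product]
  exact_mod_cast card_le_card inter_subset_left

theorem cn_nonneg (G : Finset (X × Y)) (A : Finset X) (B : Finset Y) : 0 ≤ cn G A B :=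
  Nat.cast_nonneg _

theorem cn_empty_left (G : Finset (X × Y)) (B : Finset Y) : cn G ∅ B = 0 := by
  unfold cn
  simp

theorem cn_empty_right (G : Finset (X × Y)) (A : Finset X) : cn G A ∅ = 0 := by
  unfold cn
  simp

/-- **Row LRE**. -/
theorem lre : LreStmt := by
  intro X Y _ _ A B G M ι ρ hA hB hM hι hρ hρ1 hG
  have ha0 : (0 : ℝ) < A.card := by exact_mod_cast hA.card_pos
  have hb0 : (0 : ℝ) < B.card := by exact_mod_cast hB.card_pos
  change M * (A.card * B.card) ≤ cn G A B at hG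
  obtain ⟨μ, eμ⟩ : ∃ μ : ℝ, μ = ι * ρ ^ 2 / 2 := ⟨_, rfl⟩
  have hμ : 0 < μ := by rw [eμ]; positivity
  obtain ⟨F, eF⟩ : ∃ F : Finset (Finset X × Finset Y), ∀ A' B', (A', B') ∈ F ↔
      (A' ⊆ A ∧ B' ⊆ B) ∧ A'.Nonempty ∧ B'.Nonempty :=
    ⟨(A.powerset ×ˢ B.powerset).filter fun p => p.1.Nonempty ∧ p.2.Nonempty, fun A' B' => by
      simp only [mem_filter, mem_product, mem_powerset]⟩
  obtain ⟨Φ, eΦ⟩ : ∃ Φ : Finset X × Finset Y → ℝ, ∀ A' B', Φ (A', B') =
      cn G A' B' / (A'.card * B'.card) + μ * Real.log A'.card + μ * Real.log B'.card :=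
    ⟨fun p => cn G p.1 p.2 / (p.1.card * p.2.card) + μ * Real.log p.1.card
      + μ * Real.log p.2.card, fun _ _ => rfl⟩
  have hF : (A, B) ∈ F := (eF A B).mpr ⟨⟨Subset.refl _, Subset.refl _⟩, hA, hB⟩
  obtain ⟨⟨A1, B1⟩, h1, hmax⟩ := Finset.exists_max_image F Φ ⟨_, hF⟩
  obtain ⟨⟨hA1, hB1⟩, hA1n, hB1n⟩ := (eF A1 B1).mp h1
  clear h1
  have ha1 : (0 : ℝ) < A1.card := by exact_mod_cast hA1n.card_pos
  have hb1 : (0 : ℝ) < B1.card := by exact_mod_cast hB1n.card_pos
  have hla : Real.log A1.card ≤ Real.log A.card :=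
    Real.log_le_log ha1 (by exact_mod_cast card_le_card hA1)
  have hlb : Real.log B1.card ≤ Real.log B.card :=
    Real.log_le_log hb1 (by exact_mod_cast card_le_card hB1)
  obtain ⟨h1, hh1⟩ : ∃ h1 : ℝ, h1 = cn G A1 B1 / (A1.card * B1.card) := ⟨_, rfl⟩
  have hf1 : cn G A1 B1 = h1 * (A1.card * B1.card) := by
    rw [hh1]
    field_simp
  have h1le : h1 ≤ 1 := by
    rw [hh1, div_le_one (mul_pos ha1 hb1)]
    exact cn_le G A1 B1
  have hbase : M ≤ cn G A B / (A.card * B.card) := by
    rw [le_div_iff₀ (mul_pos ha0 hb0)]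
    exact hG
  have hΦ : cn G A B / (A.card * B.card) + μ * Real.log A.card + μ * Real.log B.card
      ≤ h1 + μ * Real.log A1.card + μ * Real.log B1.card := by
    have := hmax _ hF
    rw [eΦ, eΦ] at this
    rw [hh1]
    exact this
  have hdA : 0 ≤ μ * (Real.log A.card - Real.log A1.card) := mul_nonneg hμ.le (by linarith only [hla])
  have hdB : 0 ≤ μ * (Real.log B.card - Real.log B1.card) := mul_nonneg hμ.le (by linarith only [hlb])
  have h1ge : M ≤ h1 := by linarith only [hΦ, hdA, hdB, hbase]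
  -- the size of a general competitor
  have key : ∀ A' ⊆ A1, ∀ B' ⊆ B1, A'.Nonempty → B'.Nonempty →
      cn G A' B' ≤ (A'.card * B'.card) * (h1 + μ * (Real.log A1.card - Real.log A'.card)
        + μ * (Real.log B1.card - Real.log B'.card)) := by
    intro A' hA' B' hB' hA'n hB'n
    have ha' : (0 : ℝ) < A'.card := by exact_mod_cast hA'n.card_pos
    have hb' : (0 : ℝ) < B'.card := by exact_mod_cast hB'n.card_pos
    have hm : Φ (A', B') ≤ Φ (A1, B1) := by
      apply hmax
      exact (eF A' B').mpr ⟨⟨hA'.trans hA1, hB'.trans hB1⟩, hA'n, hB'n⟩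
    rw [eΦ, eΦ] at hm
    have h2 : cn G A' B' / (A'.card * B'.card) ≤ h1 + μ * (Real.log A1.card - Real.log A'.card)
        + μ * (Real.log B1.card - Real.log B'.card) := by
      rw [hh1]
      linarith only [hm]
    rw [div_le_iff₀ (mul_pos ha' hb')] at h2
    linarith only [h2]
  -- the log inequality
  have loglem : ∀ s t : ℝ, 0 < s → 0 < t → t * (Real.log s - Real.log t) ≤ s - t := by
    intro s t hs ht
    have h2 := Real.log_le_sub_one_of_pos (show 0 < s / t by positivity)
    rw [Real.log_div hs.ne' ht.ne'] at h2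
    calc t * (Real.log s - Real.log t) ≤ t * (s / t - 1) := mul_le_mul_of_nonneg_left h2 ht.le
      _ = s - t := by field_simp
  have hinv : 1 / μ = 2 / (ι * ρ ^ 2) := by
    rw [eμ]
    field_simp
  refine ⟨A1, hA1, B1, hB1, hA1n, hB1n, ?_, ?_, ?_⟩
  · have h2 : μ * (Real.log A.card - Real.log A1.card) ≤ 1 := by
      linarith only [hΦ, hdB, hbase, hM, h1le]
    have h3 : Real.log A.card - Real.log A1.card ≤ 1 / μ := by
      rw [le_div_iff₀ hμ]
      linarith only [h2]
    rw [hinv] at h3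
    linarith only [h3]
  · have h2 : μ * (Real.log B.card - Real.log B1.card) ≤ 1 := by
      linarith only [hΦ, hdA, hbase, hM, h1le]
    have h3 : Real.log B.card - Real.log B1.card ≤ 1 / μ := by
      rw [le_div_iff₀ hμ]
      linarith only [h2]
    rw [hinv] at h3
    linarith only [h3]
  intro A' hA' B' hB' hρA hρB
  have ha' : (0 : ℝ) < A'.card := lt_of_lt_of_le (mul_pos hρ ha1) hρA
  have hb' : (0 : ℝ) < B'.card := lt_of_lt_of_le (mul_pos hρ hb1) hρB
  have hA'n : A'.Nonempty := card_pos.mp (by exact_mod_cast ha')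
  have hB'n : B'.Nonempty := card_pos.mp (by exact_mod_cast hb')
  have c1 : ((A1 \ A').card : ℝ) = A1.card - A'.card := by
    rw [card_sdiff_of_subset hA', Nat.cast_sub (card_le_card hA')]
  have c2 : ((B1 \ B').card : ℝ) = B1.card - B'.card := by
    rw [card_sdiff_of_subset hB', Nat.cast_sub (card_le_card hB')]
  have hb'le : (B'.card : ℝ) ≤ B1.card := by exact_mod_cast card_le_card hB'
  have ha'le : (A'.card : ℝ) ≤ A1.card := by exact_mod_cast card_le_card hA'
  -- step (1)
  have s1 : cn G (A1 \ A') B1 ≤ (A1.card - A'.card) * B1.card * h1 + μ * (A'.card * B1.card) := by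
    rcases (A1 \ A').eq_empty_or_nonempty with he | hne
    · rw [he, card_empty, Nat.cast_zero] at c1
      rw [he, ← c1, cn_empty_left]
      have : 0 ≤ μ * ((A'.card : ℝ) * B1.card) := mul_nonneg hμ.le (mul_nonneg ha'.le hb1.le)
      linarith only [this]
    · have h2 := key (A1 \ A') sdiff_subset B1 (Subset.refl _) hne hB1n
      have ht : (0 : ℝ) < (A1 \ A').card := by exact_mod_cast hne.card_pos
      have h3 := loglem A1.card (A1 \ A').card ha1 ht
      rw [sub_self, mul_zero, add_zero] at h2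
      have h4 : (((A1 \ A').card : ℝ) * B1.card) * (h1 + μ * (Real.log A1.card -
          Real.log (A1 \ A').card)) = (A1.card - A'.card) * B1.card * h1 + μ * (((A1 \ A').card *
          (Real.log A1.card - Real.log (A1 \ A').card)) * B1.card) := by
        rw [← c1]
        ring
      rw [h4] at h2
      have h5 : μ * (((A1 \ A').card * (Real.log A1.card - Real.log (A1 \ A').card)) * B1.card)
          ≤ μ * (A'.card * B1.card) := by
        apply mul_le_mul_of_nonneg_left _ hμ.le
        apply mul_le_mul_of_nonneg_right _ hb1.le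
        rw [c1] at h3 ⊢
        linarith only [h3]
      linarith only [h2, h5]
  have s2 : A'.card * B1.card * (h1 - μ) ≤ cn G A' B1 := by
    have h2 := cn_left G hA' B1
    rw [hf1] at h2
    have h3 : cn G A' B1 = h1 * (A1.card * B1.card) - cn G (A1 \ A') B1 := by linarith only [h2]
    rw [h3]
    linarith only [s1]
  -- step (2)
  obtain ⟨La, hLa⟩ : ∃ La : ℝ, La = Real.log A1.card - Real.log A'.card := ⟨_, rfl⟩
  have hLa0 : 0 ≤ La := by
    have := Real.log_le_log ha' ha'le
    linarith only [this, hLa]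
  have s3 : cn G A' (B1 \ B') ≤ A'.card * (B1.card - B'.card) * (h1 + μ * La)
      + μ * (A'.card * B'.card) := by
    rcases (B1 \ B').eq_empty_or_nonempty with he | hne
    · rw [he, card_empty, Nat.cast_zero] at c2
      rw [he, ← c2, cn_empty_right]
      have : 0 ≤ μ * ((A'.card : ℝ) * B'.card) := mul_nonneg hμ.le (mul_nonneg ha'.le hb'.le)
      linarith only [this]
    · have h2 := key A' hA' (B1 \ B') sdiff_subset hA'n hne
      have ht : (0 : ℝ) < (B1 \ B').card := by exact_mod_cast hne.card_pos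
      have h3 := loglem B1.card (B1 \ B').card hb1 ht
      have h4 : ((A'.card : ℝ) * (B1 \ B').card) * (h1 + μ * La + μ * (Real.log B1.card -
          Real.log (B1 \ B').card)) = A'.card * (B1.card - B'.card) * (h1 + μ * La)
          + μ * (A'.card * ((B1 \ B').card * (Real.log B1.card - Real.log (B1 \ B').card))) := by
        rw [← c2]
        ring
      rw [← hLa, h4] at h2
      have h5 : μ * (A'.card * ((B1 \ B').card * (Real.log B1.card - Real.log (B1 \ B').card)))
          ≤ μ * (A'.card * B'.card) := by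
        apply mul_le_mul_of_nonneg_left _ hμ.le
        apply mul_le_mul_of_nonneg_left _ ha'.le
        rw [c2] at h3 ⊢
        linarith only [h3]
      linarith only [h2, h5]
  have s4 : A'.card * B'.card * h1 - μ * (A'.card * B1.card * (1 + La))
      - μ * (A'.card * B'.card) ≤ cn G A' B' := by
    have h2 := cn_right G A' hB'
    have h3 : cn G A' B' = cn G A' B1 - cn G A' (B1 \ B') := by linarith only [h2]
    rw [h3]
    have h4 : 0 ≤ μ * ((A'.card : ℝ) * B'.card * La) :=
      mul_nonneg hμ.le (mul_nonneg (mul_nonneg ha'.le hb'.le) hLa0)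
    linarith only [s2, s3, h4]
  have s5 : μ * (A'.card * B1.card * (1 + La)) ≤ ι / 2 * (A'.card * B'.card) := by
    have h2 := loglem A1.card A'.card ha1 ha'
    have h3 : A'.card * (1 + La) ≤ (A1.card : ℝ) := by
      rw [← hLa] at h2
      linarith only [h2]
    have h4 : (A'.card * (1 + La)) * (ρ * B1.card) ≤ A1.card * B'.card :=
      mul_le_mul h3 hρB (mul_pos hρ hb1).le ha1.le
    have h5 : ρ * ((A'.card * (1 + La)) * (ρ * B1.card)) ≤ ρ * (A1.card * B'.card) :=
      mul_le_mul_of_nonneg_left h4 hρ.le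
    have h6 : (ρ * A1.card) * B'.card ≤ (A'.card : ℝ) * B'.card :=
      mul_le_mul_of_nonneg_right hρA hb'.le
    have h7 : μ * (A'.card * B1.card * (1 + La))
        = ι / 2 * (ρ * ((A'.card * (1 + La)) * (ρ * B1.card))) := by
      rw [eμ]
      ring
    rw [h7]
    apply mul_le_mul_of_nonneg_left _ (by positivity)
    linarith only [h5, h6]
  have s6 : μ * ((A'.card : ℝ) * B'.card) ≤ ι / 2 * (A'.card * B'.card) := by
    apply mul_le_mul_of_nonneg_right _ (mul_pos ha' hb').le
    rw [eμ]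
    have h2 : ρ ^ 2 ≤ 1 := pow_le_one₀ hρ.le hρ1
    have h3 : ι * ρ ^ 2 ≤ ι * 1 := mul_le_mul_of_nonneg_left h2 hι.le
    linarith only [h3]
  have s7 : M * ((A'.card : ℝ) * B'.card) ≤ (A'.card : ℝ) * B'.card * h1 := by
    rw [mul_comm ((A'.card : ℝ) * B'.card) h1]
    exact mul_le_mul_of_nonneg_right h1ge (mul_pos ha' hb').le
  show (M - ι) * (A'.card * B'.card) ≤ cn G A' B'
  linarith only [s4, s5, s6, s7]

end Pool.Agent.EGF.H67
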