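import Pool.Agent.EGF.StmtsV

/-!
# Squad EGF, row PIG (helper67): a pair which is good for all four functions
-/

set_option autoImplicit false

open Finset

namespace Pool.Agent.EGF.H67

open Pool.Agent.EGF

theorem pig : PigStmt := by
  intro m n d M hM hm hn hup hlow
  by_contra hcon
  push Not at hcon
  have hm' : (1 : ℝ) ≤ m := by exact_mod_cast hm
  have hn' : (1 : ℝ) ≤ n := by exact_mod_cast hn
  have h1 : ∀ i ∈ range m, ∀ j ∈ range n,
      (6 / 1000) * M ≤ ∑ t, ((1 + 1 / 1000) * M - d t i j) := by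
    intro i hi j hj
    have hi' := mem_range.1 hi
    have hj' := mem_range.1 hj
    obtain ⟨t, ht⟩ := hcon i hi' j hj'
    have h2 := Finset.single_le_sum (f := fun t => (1 + 1 / 1000) * M - d t i j)
      (fun t _ => sub_nonneg.2 (hup t i hi' j hj')) (mem_univ t)
    linarith
  have h2 : ∑ i ∈ range m, ∑ j ∈ range n, (6 / 1000) * M ≤
      ∑ i ∈ range m, ∑ j ∈ range n, ∑ t, ((1 + 1 / 1000) * M - d t i j) :=
    Finset.sum_le_sum fun i hi => Finset.sum_le_sum fun j hj => h1 i hi j hj
  simp only [Fin.sum_univ_four, Finset.sum_add_distrib, Finset.sum_sub_distrib, sum_const,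
    card_range, nsmul_eq_mul, Finset.card_univ, Fintype.card_fin, Nat.cast_ofNat] at h2
  have l0 := hlow 0
  have l1 := hlow 1
  have l2 := hlow 2
  have l3 := hlow 3
  have hmn : 0 < M * ((m : ℝ) * n) := by positivity
  nlinarith only [h2, l0, l1, l2, l3, hmn]

end Pool.Agent.EGF.H67
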