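import Pool.Agent.EGF.StmtsQ

/-!
# Squad EGF, row RC2: record sets for the palette and the largest star palette
-/

set_option autoImplicit false

open Finset

namespace Pool.Agent.EGF.H67

theorem pal_mono {V : Type} [DecidableEq V] {k : ℕ} (c : V → V → Fin k) {U W : Finset V}
    (h : U ⊆ W) : pal c U ⊆ pal c W := by
  unfold pal
  exact Finset.image_subset_image
    (Finset.filter_subset_filter _ (Finset.product_subset_product h h))

theorem star_sub {V : Type} [DecidableEq V] {k : ℕ} (c : V → V → Fin k) (W : Finset V) (x : V)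
    (hx : x ∈ W) : star c W x ⊆ pal c W := by
  intro a ha
  unfold star at ha
  rw [Finset.mem_image] at ha
  obtain ⟨z, hz, rfl⟩ := ha
  rw [Finset.mem_filter] at hz
  unfold pal
  rw [Finset.mem_image]
  refine ⟨(x, z), ?_, rfl⟩
  rw [Finset.mem_filter, Finset.mem_product]
  exact ⟨⟨hx, hz.1⟩, fun h => hz.2 h.symm⟩

theorem smax_le {V : Type} [DecidableEq V] {k : ℕ} (c : V → V → Fin k) (W : Finset V) :
    smax c W ≤ (pal c W).card :=
  Finset.sup_le fun x hx => Finset.card_le_card (star_sub c W x hx)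

theorem rc2 : Rc2Stmt := by
  intro V _ k c W θ hθ hW hpal
  have hWm : W ∈ W.powerset.filter fun U => U.Nonempty := by
    rw [Finset.mem_filter, Finset.mem_powerset]
    exact ⟨Finset.Subset.refl W, hW⟩
  obtain ⟨U, hU, hmax⟩ := Finset.exists_max_image (W.powerset.filter fun U => U.Nonempty)
    (fun U => Real.log U.card - θ / 4 * ((pal c U).card + smax c U)) ⟨W, hWm⟩
  rw [Finset.mem_filter, Finset.mem_powerset] at hU
  obtain ⟨hUW, hUn⟩ := hU
  have h1 : Real.log W.card - θ / 4 * ((pal c W).card + smax c W) ≤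
      Real.log U.card - θ / 4 * ((pal c U).card + smax c U) := hmax W hWm
  have h2 : (smax c W : ℝ) ≤ (pal c W).card := by exact_mod_cast smax_le c W
  have h3 : ((pal c U).card : ℝ) ≤ (pal c W).card := by
    exact_mod_cast Finset.card_le_card (pal_mono c hUW)
  have h5 : 0 ≤ θ / 4 * (((pal c U).card : ℝ) + smax c U) := by positivity
  have h6 : θ / 4 * (((pal c W).card : ℝ) + smax c W) ≤
      θ / 4 * (((pal c W).card : ℝ) + (pal c W).card) :=
    mul_le_mul_of_nonneg_left (by linarith) (by positivity)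
  have h4 : Real.log W.card ≤ 2 * Real.log U.card := by linarith
  refine ⟨U, hUW, ⟨hUn, ?_⟩, h4, ?_⟩
  · intro W' hW' hne
    exact hmax W' (by
      rw [Finset.mem_filter, Finset.mem_powerset]
      exact ⟨hW'.trans hUW, hne⟩)
  · have h7 : θ * ((pal c U).card : ℝ) ≤ 2 * Real.log U.card :=
      (mul_le_mul_of_nonneg_left h3 hθ.le).trans (hpal.trans h4)
    rw [div_mul_eq_mul_div, le_div_iff₀ hθ, mul_comm]
    exact h7

end Pool.Agent.EGF.H67
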