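import Pool.Agent.EGF.StmtsU

/-!
# Squad EGF, row TPQ (helper67): second moment of `q`
-/

set_option autoImplicit false

open Finset

namespace Pool.Agent.EGF.H67

open Pool.Agent.EGF

theorem tpq : TpqStmt := by
  intro X Y _ _ I τ B P B1 N G u e1 e2 K T hG hτ hu0 hu2 he1 he2 hU hS b hb
  have hT : (0 : ℝ) < T := by exact_mod_cast hS.pos
  obtain ⟨q, hq⟩ : ∃ q : X → ℝ, ∀ i, q i = (∑ y ∈ N b, G i y) / T := ⟨_, fun _ => rfl⟩
  obtain ⟨e, he⟩ : ∃ e : ℝ, e = e1 / T + e2 := ⟨_, rfl⟩
  have he0 : 0 ≤ e := by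
    rw [he]
    exact add_nonneg (div_nonneg he1 hT.le) he2
  simp only [← hq, ← he]
  have hG0 : ∀ i y, 0 ≤ G i y := by
    intro i y
    rcases hG i y with h | h <;> rw [h]
    exact zero_le_one
  have hG1 : ∀ i y, G i y ≤ 1 := by
    intro i y
    rcases hG i y with h | h <;> rw [h]
    exact zero_le_one
  have hNB : N b ⊆ B := (hS.NB b hb).trans hS.B1B
  have hcN : ((N b).card : ℝ) = T := by rw [hS.cN b hb]
  have hq0 : ∀ i, 0 ≤ q i := by
    intro i
    rw [hq]
    exact div_nonneg (sum_nonneg fun y _ => hG0 i y) hT.le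
  have hq1 : ∀ i, q i ≤ 1 := by
    intro i
    rw [hq, div_le_one hT, ← hcN]
    have h1 := Finset.sum_le_card_nsmul (N b) (G i) 1 (fun y _ => hG1 i y)
    rw [nsmul_eq_mul, mul_one] at h1
    exact h1
  have h2 : ∑ y ∈ B, (if y ∈ N b then 1 / (T : ℝ) else 0) = 1 := by
    rw [← Finset.sum_filter, Finset.filter_mem_eq_inter, Finset.inter_eq_right.2 hNB,
      Finset.sum_const, nsmul_eq_mul, hcN, mul_one_div, div_self hT.ne']
  have h3 : ∀ i, ∑ y ∈ B, (if y ∈ N b then 1 / (T : ℝ) else 0) * G i y = q i := by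
    intro i
    have h4 : ∀ y, (if y ∈ N b then 1 / (T : ℝ) else 0) * G i y =
        if y ∈ N b then G i y / T else 0 := by
      intro y
      by_cases hy : y ∈ N b
      · rw [if_pos hy, if_pos hy]
        ring
      · rw [if_neg hy, if_neg hy, zero_mul]
    simp only [h4]
    rw [← Finset.sum_filter, Finset.filter_mem_eq_inter, Finset.inter_eq_right.2 hNB, hq,
      Finset.sum_div]
  have key : ∀ S ⊆ I, ∑ i ∈ S, τ i * q i ≤ u * ∑ i ∈ S, τ i + e := by
    intro S hSI
    have h1 := hU S hSI (fun y => if y ∈ N b then 1 / (T : ℝ) else 0) (1 / T) (by positivity)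
      (fun y _ => by
        by_cases hy : y ∈ N b
        · simp only [if_pos hy]
          exact ⟨by positivity, le_rfl⟩
        · simp only [if_neg hy]
          exact ⟨le_rfl, by positivity⟩)
    simp only [h2, h3] at h1
    refine h1.trans (le_of_eq ?_)
    rw [he]
    ring
  classical
  obtain ⟨S, hSd⟩ : ∃ S : Finset X, S = I.filter (fun i => u < q i) := ⟨_, rfl⟩
  have hSI : S ⊆ I := by
    rw [hSd]
    exact Finset.filter_subset _ _
  have k1 := key I (Finset.Subset.refl I)
  have k2 := key S hSI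
  have h5 : ∀ i ∈ I, τ i * q i ^ 2 ≤ u * (τ i * q i) +
      (if u < q i then τ i * q i - u * τ i else 0) := by
    intro i hi
    have hτi := hτ.1 i hi
    by_cases hlt : u < q i
    · rw [if_pos hlt]
      have h6 : 0 ≤ τ i * ((q i - u) * (1 - q i)) :=
        mul_nonneg hτi (mul_nonneg (by linarith) (by linarith [hq1 i]))
      nlinarith only [h6]
    · rw [if_neg hlt]
      have h6 : 0 ≤ τ i * (q i * (u - q i)) :=
        mul_nonneg hτi (mul_nonneg (hq0 i) (by linarith))
      nlinarith only [h6]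
  have h7 := Finset.sum_le_sum h5
  rw [Finset.sum_add_distrib, ← Finset.mul_sum, ← Finset.sum_filter, ← hSd,
    Finset.sum_sub_distrib, ← Finset.mul_sum] at h7
  rw [hτ.2] at k1
  nlinarith only [h7, k1, k2, mul_le_mul_of_nonneg_left k1 hu0, mul_nonneg (sub_nonneg.2 hu2) he0]

end Pool.Agent.EGF.H67
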